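import Mathlib
import Pool.Agent.Helper78.AE.Spec

set_option autoImplicit false

/-!
# Almost-equidistant sets of diameter one: the counting of eigenvalues
-/

namespace Pool.Agent.Helper24.AE.CORE

open Finset Matrix
open Pool.Agent.Helper78.AE

lemma mat_ext {n : ℕ} {A B : Matrix (Fin n) (Fin n) ℝ} (h : ∀ x, A.mulVec x = B.mulVec x) :
    A = B := by
  ext i j
  have h1 := congrFun (h (Pi.single j 1)) i
  simpa using h1

lemma sq_expand {n : ℕ} {A : Matrix (Fin n) (Fin n) ℝ} {μ : Fin n → ℝ} {e : Fin n → Fin n → ℝ}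
    (hE : ∀ i, A.mulVec (e i) = μ i • e i) (hx : ∀ x : Fin n → ℝ, x = ∑ i, (e i ⬝ᵥ x) • e i)
    (x : Fin n → ℝ) : (A * A).mulVec x = ∑ i, (μ i ^ 2 * (e i ⬝ᵥ x)) • e i := by
  conv_lhs => rw [hx x]
  rw [Matrix.mulVec_sum]
  refine Finset.sum_congr rfl fun i _ => ?_
  rw [Matrix.mulVec_smul, ← Matrix.mulVec_mulVec, hE, Matrix.mulVec_smul, hE, smul_smul, smul_smul]
  congr 1
  ring

/-- the cubic `x³ - 3x` -/
def th (x : ℝ) : ℝ := x ^ 3 - 3 * x

lemma sum_th {n : ℕ} {μ : Fin n → ℝ} (h1 : ∑ i, μ i = 0) (h3 : ∑ i, μ i ^ 3 = 0) :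
    ∑ i, th (μ i) = 0 := by
  unfold th
  rw [Finset.sum_sub_distrib, h3, ← Finset.mul_sum, h1]
  ring

lemma th_ge {x : ℝ} (hx : -1 < x) : -2 ≤ th x := by
  unfold th
  nlinarith [mul_nonneg (sq_nonneg (x - 1)) (by linarith : (0 : ℝ) ≤ x + 2)]

lemma th_eq {x : ℝ} (hx : -1 < x) (h : th x = -2) : x = 1 := by
  unfold th at h
  have h1 : (x - 1) ^ 2 * (x + 2) = 0 := by linear_combination h
  rcases mul_eq_zero.1 h1 with h2 | h2
  · have := pow_eq_zero_iff (two_ne_zero) |>.1 h2
    linarith
  · linarith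

lemma th_mono {x t : ℝ} (ht : 1 < t) (hx : t ≤ x) : th t ≤ th x := by
  unfold th
  have h1 : 0 ≤ (x - t) * (x ^ 2 + x * t + t ^ 2 - 3) :=
    mul_nonneg (by linarith) (by nlinarith)
  nlinarith

lemma th_inj {x t : ℝ} (ht : 1 < t) (hx : t ≤ x) (h : th x = th t) : x = t := by
  unfold th at h
  have h1 : (x - t) * (x ^ 2 + x * t + t ^ 2 - 3) = 0 := by linear_combination h
  rcases mul_eq_zero.1 h1 with h2 | h2
  · linarith
  · nlinarith

/-- the values at most -/
noncomputable def cc (x : ℝ) : ℝ := if -1 < x then -2 else 2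

lemma sum_cc {n : ℕ} (μ : Fin n → ℝ) :
    ∑ i, cc (μ i) = 2 * n - 4 * ((univ.filter fun i => -1 < μ i).card : ℝ) := by
  have h1 : ∀ i, cc (μ i) = 2 - 4 * (if -1 < μ i then (1 : ℝ) else 0) := by
    intro i
    unfold cc
    split_ifs <;> norm_num
  rw [Finset.sum_congr rfl fun i _ => h1 i, Finset.sum_sub_distrib, ← Finset.mul_sum,
    Finset.sum_boole]
  simp
  ring

lemma th_neg_one : th (-1) = 2 := by
  unfold th
  norm_num

lemma th_neg (t : ℝ) : th (-t) = -th t := by
  unfold th
  ring

/-- CORE -/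
theorem main (hs : S_SPECB) : S_CORE := by
  intro n d A hA
  obtain ⟨μ, e, hE, hn, ho, hx, h1, h3, hN, hP, hT⟩ := hs n d A hA
  by_cases hnd : n ≤ 2 * d + 1
  · exact Or.inl hnd
  right
  push Not at hnd
  have hPn : 4 * ((univ.filter fun i => -1 < μ i).card : ℝ) ≤ 2 * n := by
    have h4 : 2 * (univ.filter fun i => -1 < μ i).card ≤ n := by omega
    have h5 : ((2 * (univ.filter fun i => -1 < μ i).card : ℕ) : ℝ) ≤ n := by exact_mod_cast h4
    push_cast at h5
    linarith
  by_cases hc : ∃ i0, μ i0 < -1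
  · right
    obtain ⟨i0, hi0⟩ := hc
    obtain ⟨j0, hj0⟩ := hT i0 hi0
    set t : ℝ := -μ i0 with ht
    have ht1 : 1 < t := by rw [ht]; linarith
    have hij : i0 ≠ j0 := by
      rintro rfl
      rw [ht] at hj0
      linarith
    have hge : ∀ i, i ≠ i0 → -1 ≤ μ i := by
      intro i hi
      by_contra h
      push Not at h
      exact hi (hN i i0 h hi0)
    -- the nonnegative function
    let ψ : Fin n → ℝ := fun i => th (μ i) - cc (μ i) - (if i = i0 then th (-t) - 2 else 0) -
      (if i = j0 then th t + 2 else 0)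
    have hψ0 : ∀ i, 0 ≤ ψ i := by
      intro i
      show 0 ≤ th (μ i) - cc (μ i) - (if i = i0 then th (-t) - 2 else 0) -
        (if i = j0 then th t + 2 else 0)
      by_cases hi : i = i0
      · subst hi
        rw [if_pos rfl, if_neg hij]
        have : μ i = -t := by rw [ht]; ring
        rw [this]
        unfold cc
        rw [if_neg (by linarith)]
        linarith
      · rw [if_neg hi]
        by_cases hj : i = j0
        · subst hj
          rw [if_pos rfl]
          unfold cc
          rw [if_pos (by linarith)]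
          have := th_mono ht1 hj0
          linarith
        · rw [if_neg hj]
          unfold cc
          split_ifs with h4
          · have := th_ge h4
            linarith
          · have h5 : μ i = -1 := le_antisymm (not_lt.1 h4) (hge i hi)
            rw [h5, th_neg_one]
            norm_num
    have hψs : ∑ i, ψ i ≤ 0 := by
      show ∑ i, (th (μ i) - cc (μ i) - (if i = i0 then th (-t) - 2 else 0) -
        (if i = j0 then th t + 2 else 0)) ≤ 0
      rw [Finset.sum_sub_distrib, Finset.sum_sub_distrib, Finset.sum_sub_distrib, sum_th h1 h3,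
        sum_cc, Finset.sum_ite_eq', Finset.sum_ite_eq', if_pos (mem_univ _), if_pos (mem_univ _),
        th_neg]
      linarith
    have hψ : ∀ i, ψ i = 0 := by
      have h6 : ∑ i, ψ i = 0 := le_antisymm hψs (Finset.sum_nonneg fun i _ => hψ0 i)
      intro i
      exact (Finset.sum_eq_zero_iff_of_nonneg fun i _ => hψ0 i).1 h6 i (mem_univ i)
    have hj0t : μ j0 = t := by
      have h7 : th (μ j0) - cc (μ j0) - (if j0 = i0 then th (-t) - 2 else 0) -
        (if j0 = j0 then th t + 2 else 0) = 0 := hψ j0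
      rw [if_neg (Ne.symm hij), if_pos rfl] at h7
      unfold cc at h7
      rw [if_pos (by linarith)] at h7
      exact th_inj ht1 hj0 (by linarith)
    have hoth : ∀ i, i ≠ i0 → i ≠ j0 → μ i ^ 2 = 1 := by
      intro i hi hj
      have h7 : th (μ i) - cc (μ i) - (if i = i0 then th (-t) - 2 else 0) -
        (if i = j0 then th t + 2 else 0) = 0 := hψ i
      rw [if_neg hi, if_neg hj] at h7
      unfold cc at h7
      split_ifs at h7 with h4
      · rw [th_eq h4 (by linarith)]
        norm_num
      · rw [le_antisymm (not_lt.1 h4) (hge i hi)]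
        norm_num
    refine ⟨t, e j0, e i0, ht1, ?_, ?_, hn j0, hn i0, ho j0 i0 (Ne.symm hij), ?_⟩
    · rw [hE, hj0t]
    · rw [hE, ht, neg_neg]
    · refine mat_ext fun x => ?_
      have h8 : ∑ i, (μ i ^ 2 * (e i ⬝ᵥ x)) • e i = ∑ i, (e i ⬝ᵥ x) • e i +
          ((t ^ 2 - 1) * (e i0 ⬝ᵥ x)) • e i0 + ((t ^ 2 - 1) * (e j0 ⬝ᵥ x)) • e j0 := by
        have h9 : ∀ i, (μ i ^ 2 * (e i ⬝ᵥ x)) • e i = (e i ⬝ᵥ x) • e i +
            (if i = i0 then ((t ^ 2 - 1) * (e i ⬝ᵥ x)) • e i else 0) +
            (if i = j0 then ((t ^ 2 - 1) * (e i ⬝ᵥ x)) • e i else 0) := by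
          intro i
          by_cases hi : i = i0
          · subst hi
            rw [if_pos rfl, if_neg hij, add_zero, ← add_smul]
            congr 1
            rw [ht]
            ring
          · rw [if_neg hi, add_zero]
            by_cases hj : i = j0
            · subst hj
              rw [if_pos rfl, ← add_smul, hj0t]
              congr 1
              ring
            · rw [if_neg hj, add_zero, hoth i hi hj, one_mul]
        rw [Finset.sum_congr rfl fun i _ => h9 i, Finset.sum_add_distrib, Finset.sum_add_distrib,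
          Finset.sum_ite_eq', Finset.sum_ite_eq', if_pos (mem_univ _), if_pos (mem_univ _)]
      rw [sq_expand hE hx x, Matrix.add_mulVec, Matrix.one_mulVec, Matrix.smul_mulVec,
        Matrix.add_mulVec, Matrix.vecMulVec_mulVec, Matrix.vecMulVec_mulVec, h8, ← hx x]
      ext i
      simp
      ring
  · left
    push Not at hc
    let ψ : Fin n → ℝ := fun i => th (μ i) - cc (μ i)
    have hψ0 : ∀ i, 0 ≤ ψ i := by
      intro i
      show 0 ≤ th (μ i) - cc (μ i)
      unfold cc
      split_ifs with h4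
      · have := th_ge h4
        linarith
      · have h5 : μ i = -1 := le_antisymm (not_lt.1 h4) (hc i)
        rw [h5, th_neg_one]
        norm_num
    have hψs : ∑ i, ψ i ≤ 0 := by
      show ∑ i, (th (μ i) - cc (μ i)) ≤ 0
      rw [Finset.sum_sub_distrib, sum_th h1 h3, sum_cc]
      linarith
    have hψ : ∀ i, ψ i = 0 := by
      have h6 : ∑ i, ψ i = 0 := le_antisymm hψs (Finset.sum_nonneg fun i _ => hψ0 i)
      intro i
      exact (Finset.sum_eq_zero_iff_of_nonneg fun i _ => hψ0 i).1 h6 i (mem_univ i)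
    have hoth : ∀ i, μ i ^ 2 = 1 := by
      intro i
      have h7 : th (μ i) - cc (μ i) = 0 := hψ i
      unfold cc at h7
      split_ifs at h7 with h4
      · rw [th_eq h4 (by linarith)]
        norm_num
      · rw [le_antisymm (not_lt.1 h4) (hc i)]
        norm_num
    refine mat_ext fun x => ?_
    rw [sq_expand hE hx x, Matrix.one_mulVec]
    conv_rhs => rw [hx x]
    refine Finset.sum_congr rfl fun i _ => ?_
    rw [hoth i, one_mul]

end Pool.Agent.Helper24.AE.CORE
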